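import Pool.Agent.Lib.MP_776403_ag.SD.SpecE
import Pool.Agent.Lib.MP_776403_ag.SD.Bas
import Pool.Agent.Lib.MP_776403_ag.SD.H.Defs

/-!
# THEOREM SD, part E: (E3) colength of the conormal module on a line
-/

set_option autoImplicit false

open MvPolynomial

noncomputable section

namespace Pool.Agent.Lib.MP_776403_ag.SD.H

namespace ColAux

variable {N : ℕ}

/-- Rank-nullity for a submodule, the kernel being known. -/
theorem rank_null {M M' : Type} [AddCommGroup M] [Module ℂ M] [AddCommGroup M'] [Module ℂ M']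
    (f : M →ₗ[ℂ] M') (V W : Submodule ℂ M) [FiniteDimensional ℂ V] (hWV : W ≤ V)
    (h1 : ∀ w ∈ V, f w = 0 → w ∈ W) (h2 : ∀ w ∈ W, f w = 0) :
    Module.finrank ℂ V = Module.finrank ℂ (V.map f) + Module.finrank ℂ W := by
  have hr := LinearMap.finrank_range_add_finrank_ker (f.domRestrict V)
  rw [LinearMap.range_domRestrict] at hr
  have hk : LinearMap.ker (f.domRestrict V) = Submodule.comap V.subtype W := by
    ext x
    rw [LinearMap.mem_ker, LinearMap.domRestrict_apply, Submodule.mem_comap, Submodule.subtype_apply]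
    exact ⟨h1 _ x.2, h2 _⟩
  rw [hk, LinearEquiv.finrank_eq (Submodule.comapSubtypeEquivOfLe hWV)] at hr
  exact hr.symm

/-- Vectors of polynomials of degree `< m`. -/
def Vm (c m : ℕ) : Submodule ℂ (Fin c → Polynomial ℂ) :=
  Submodule.pi Set.univ fun _ => Polynomial.degreeLT ℂ m

theorem mem_Vm {c m : ℕ} {e : Fin c → Polynomial ℂ} :
    e ∈ Vm c m ↔ ∀ b, e b ∈ Polynomial.degreeLT ℂ m := by
  simp [Vm, Submodule.mem_pi]

/-- `Vm` in coordinates. -/
def VmEquiv (c m : ℕ) : Vm c m ≃ₗ[ℂ] (Fin c → Polynomial.degreeLT ℂ m) where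
  toFun e := fun b => ⟨e.1 b, mem_Vm.1 e.2 b⟩
  invFun e := ⟨fun b => (e b : Polynomial ℂ), mem_Vm.2 fun b => (e b).2⟩
  map_add' _ _ := rfl
  map_smul' _ _ := rfl
  left_inv _ := rfl
  right_inv _ := rfl

instance finLT (m : ℕ) : FiniteDimensional ℂ (Polynomial.degreeLT ℂ m) :=
  Module.Finite.equiv (Polynomial.degreeLTEquiv ℂ m).symm

theorem finrank_LT (m : ℕ) : Module.finrank ℂ (Polynomial.degreeLT ℂ m) = m := by
  rw [LinearEquiv.finrank_eq (Polynomial.degreeLTEquiv ℂ m), Module.finrank_fin_fun]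

instance finVm (c m : ℕ) : FiniteDimensional ℂ (Vm c m) :=
  Module.Finite.equiv (VmEquiv c m).symm

theorem finrank_Vm (c m : ℕ) : Module.finrank ℂ (Vm c m) = c * m := by
  rw [LinearEquiv.finrank_eq (VmEquiv c m), Module.finrank_pi_fintype]
  simp only [finrank_LT, Finset.sum_const, Finset.card_univ, Fintype.card_fin, smul_eq_mul]

/-- The restriction to the line on the quotient. -/
def linQ (x v : Vx N) : (Sx N ⧸ lineI x v) →ₐ[ℂ] Polynomial ℂ :=
  Ideal.Quotient.liftₐ (lineI x v) (lin x v) (by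
    intro F hF
    refine poly_ext fun t => ?_
    rw [lin_eval, Polynomial.eval_zero]
    have := hF 1 t
    rwa [one_smul] at this)

theorem linQ_mk (x v : Vx N) (F : Sx N) :
    linQ x v (Ideal.Quotient.mk (lineI x v) F) = lin x v F := rfl

/-- The `B`-coordinates on the line. -/
def phi {I : Ideal (Sx N)} {x : Vx N} {c : ℕ} (L : Loc I x c) (v0 : Vx N) :
    ((Fin 1 → Fin (N + 1)) → Sx N ⧸ lineI x v0) →ₗ[ℂ] (Fin c → Polynomial ℂ) :=
  LinearMap.pi fun b => (linQ x v0).toLinearMap.comp (LinearMap.proj fun _ => L.B b)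

theorem phi_apply {I : Ideal (Sx N)} {x : Vx N} {c : ℕ} (L : Loc I x c) (v0 : Vx N)
    (z : (Fin 1 → Fin (N + 1)) → Sx N ⧸ lineI x v0) (b : Fin c) :
    phi L v0 z b = linQ x v0 (z fun _ => L.B b) := rfl

/-- The module `E` contains the multiples of `D`. -/
theorem D_mul_mem {I : Ideal (Sx N)} {x : Vx N} {c : ℕ} (L : Loc I x c) (v0 : Vx N)
    (e : Fin c → Polynomial ℂ) : (fun b => lin x v0 L.dt * e b) ∈ L.E v0 := by
  classical
  set M' : Matrix (Fin c) (Fin c) (Polynomial ℂ) := L.M.map (lin x v0) with hM'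
  have hdet : M'.det = lin x v0 L.dt := by
    rw [hM', Loc.dt, AlgHom.map_det]
    rfl
  have h1 : (fun b => lin x v0 L.dt * e b) =
      ∑ i, (∑ b', e b' * M'.adjugate b' i) • (fun b => lin x v0 (pderiv (L.B b) (L.F i))) := by
    funext b
    rw [Finset.sum_apply]
    have h2 : ∀ i, ((∑ b', e b' * M'.adjugate b' i) •
        (fun b => lin x v0 (pderiv (L.B b) (L.F i)))) b =
        ∑ b', e b' * (M'.adjugate b' i * M' i b) := by
      intro i
      rw [Pi.smul_apply, smul_eq_mul, Finset.sum_mul]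
      exact Finset.sum_congr rfl fun b' _ => by rw [mul_assoc]; rfl
    rw [Finset.sum_congr rfl fun i _ => h2 i, Finset.sum_comm]
    have h3 : ∀ b', ∑ i, e b' * (M'.adjugate b' i * M' i b) =
        e b' * ((M'.adjugate * M') b' b) := by
      intro b'
      rw [Matrix.mul_apply, Finset.mul_sum]
    rw [Finset.sum_congr rfl fun b' _ => h3 b', Matrix.adjugate_mul, hdet]
    rw [Finset.sum_eq_single b]
    · rw [Matrix.smul_apply, Matrix.one_apply_eq, smul_eq_mul, mul_one, mul_comm]
    · intro b' _ hb'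
      rw [Matrix.smul_apply, Matrix.one_apply_ne hb', smul_zero, mul_zero]
    · intro h
      exact absurd (Finset.mem_univ b) h
  rw [h1]
  exact Submodule.sum_mem _ fun i _ => Submodule.smul_mem _ _
    (Submodule.subset_span ⟨L.F i, L.memF i, rfl⟩)

end ColAux

open ColAux in
theorem eCol : S_LinB → S_Hom → S_CrL → S_LineI → S_Col := by
  intro _ _ hCrL hLineI N c d I hH x v0 hl L
  classical
  obtain ⟨hD0, -, hCr, -⟩ := hCrL N c I x v0 x 0 L (by rw [zero_smul, add_zero]) hl.1.2
  obtain ⟨hJp, hJh, hJ1, -, hJd⟩ := hLineI N x v0 hl.1.1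
  set J := lineI x v0 with hJ
  set D := lin x v0 L.dt with hD
  have hIJ : I ≤ J := fun F hF s t => hl.1.2 s t F hF
  set E' : Submodule ℂ (Fin c → Polynomial ℂ) := (L.E v0).restrictScalars ℂ with hE'
  set q : (Fin c → Polynomial ℂ) →ₗ[ℂ] ((Fin c → Polynomial ℂ) ⧸ L.E v0) :=
    (L.E v0).mkQ.restrictScalars ℂ with hq
  have hq0 : ∀ e, q e = 0 ↔ e ∈ L.E v0 := fun e => Submodule.Quotient.mk_eq_zero (L.E v0)
  have hsurj : ∀ m, D.natDegree ≤ m → (Vm c m).map q = ⊤ := by
    intro m hm
    rw [eq_top_iff]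
    rintro y -
    obtain ⟨e, rfl⟩ := Submodule.Quotient.mk_surjective _ y
    refine ⟨fun b => e b % D, mem_Vm.2 fun b => ?_, ?_⟩
    · rw [Polynomial.mem_degreeLT]
      refine lt_of_lt_of_le (EuclideanDomain.mod_lt (e b) hD0) ?_
      rw [Polynomial.degree_eq_natDegree hD0]
      exact_mod_cast hm
    · change Submodule.Quotient.mk (fun b => e b % D) = Submodule.Quotient.mk e
      rw [Submodule.Quotient.eq]
      have h1 : (fun b => e b % D) - e = fun b => D * (-(e b / D)) := by
        funext b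
        have := EuclideanDomain.div_add_mod (e b) D
        rw [Pi.sub_apply]
        linear_combination this
      rw [h1]
      exact D_mul_mem L v0 _
  have hfin : Module.Finite ℂ ((Fin c → Polynomial ℂ) ⧸ L.E v0) := by
    have h1 : Module.Finite ℂ ((Vm c D.natDegree).map q) := inferInstance
    rw [hsurj _ le_rfl] at h1
    exact Module.Finite.equiv Submodule.topEquiv
  refine ⟨D_mul_mem L v0, hfin, ?_⟩
  have hnum := hH.numL x v0 hl
  obtain ⟨m, hm1, hm2⟩ := (hnum.and (Filter.eventually_ge_atTop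
    (D.natDegree + ∑ i, d i + 1))).exists
  have hdm : ∀ i, d i ≤ m := fun i => by
    have := Finset.single_le_sum (f := d) (fun _ _ => Nat.zero_le _) (Finset.mem_univ i)
    omega
  have hrk := rank_null q (Vm c m) (Vm c m ⊓ E') inf_le_left
    (fun w hw hw0 => ⟨hw, (hq0 w).1 hw0⟩) (fun w hw => (hq0 w).2 hw.2)
  rw [hsurj m (by omega), finrank_top, finrank_Vm] at hrk
  -- properties of the elements of `Lam`
  have hLam : ∀ z ∈ Lam I J 1 m, (∀ α, z α ∈ gr J (m - 1)) ∧
      (∀ α, D * linQ x v0 (z α) =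
        ∑ b, lin x v0 (L.coef b (α 0)) * linQ x v0 (z fun _ => L.B b)) ∧
      phi L v0 z ∈ Vm c m ⊓ E' := by
    intro z hz
    unfold Lam at hz
    induction hz using Submodule.span_induction with
    | mem z hz =>
      obtain ⟨a, e, F, f, ha, hF, hm, rfl⟩ := hz
      rw [Fin.sum_univ_one] at hm
      have hdet : ∀ α : Fin 1 → Fin (N + 1),
          Matrix.det (Matrix.of fun i k => pderiv (α k) (F i)) = pderiv (α 0) (F 0) := by
        intro α
        rw [Matrix.det_fin_one]
        rfl
      have hhom : ∀ j, (a * pderiv j (F 0)).IsHomogeneous (m - 1) := by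
        intro j
        rcases Nat.eq_zero_or_pos (f 0) with h0 | h0
        · have h1 : F 0 = C (coeff 0 (F 0)) := by
            rw [← totalDegree_eq_zero_iff_eq_C]
            have := (hF 0).2.totalDegree_le
            rw [h0] at this
            exact Nat.le_zero.mp this
          rw [h1, pderiv_C, mul_zero]
          exact isHomogeneous_zero _ _ _
        · have h1 := ha.mul ((hF 0).2.pderiv (i := j))
          have h2 : e + (f 0 - 1) = m - 1 := by omega
          rwa [h2] at h1
      simp only [hdet]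
      refine ⟨fun α => ⟨a * pderiv (α 0) (F 0), hhom _, rfl⟩, fun α => ?_, ?_, ?_⟩
      · rw [linQ_mk, map_mul, mul_left_comm, hCr (F 0) (hF 0).1 (α 0), Finset.mul_sum]
        refine Finset.sum_congr rfl fun b _ => ?_
        rw [linQ_mk, map_mul]
        ring
      · refine mem_Vm.2 fun b => ?_
        rw [phi_apply, linQ_mk]
        have h1 := lin_mem (hhom (L.B b)) x v0
        rwa [Nat.sub_add_cancel (by omega)] at h1
      · have h1 : phi L v0 (fun α => Ideal.Quotient.mk (lineI x v0) (a * pderiv (α 0) (F 0))) =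
            lin x v0 a • (fun b => lin x v0 (pderiv (L.B b) (F 0))) := by
          funext b
          rw [phi_apply, linQ_mk, map_mul]
          rfl
        change phi L v0 _ ∈ L.E v0
        rw [h1]
        exact Submodule.smul_mem _ _ (Submodule.subset_span ⟨F 0, (hF 0).1, rfl⟩)
    | zero =>
      refine ⟨fun α => Submodule.zero_mem _, fun α => ?_, ?_⟩
      · simp
      · rw [map_zero]; exact Submodule.zero_mem _
    | add z z' _ _ hz hz' =>
      refine ⟨fun α => Submodule.add_mem _ (hz.1 α) (hz'.1 α), fun α => ?_, ?_⟩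
      · simp only [Pi.add_apply, map_add, mul_add, Finset.sum_add_distrib, hz.2.1 α, hz'.2.1 α]
      · rw [map_add]; exact Submodule.add_mem _ hz.2.2 hz'.2.2
    | smul r z _ hz =>
      refine ⟨fun α => Submodule.smul_mem _ r (hz.1 α), fun α => ?_, ?_⟩
      · simp only [Pi.smul_apply, map_smul, mul_smul_comm, hz.2.1 α, Finset.smul_sum]
      · rw [map_smul]; exact Submodule.smul_mem _ r hz.2.2
  have hinj : Module.finrank ℂ (Lam I J 1 m) ≤ Module.finrank ℂ ↥(Vm c m ⊓ E') := by
    refine LinearMap.finrank_le_finrank_of_injective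
      (f := ((phi L v0).domRestrict (Lam I J 1 m)).codRestrict (Vm c m ⊓ E')
        fun z => (hLam z.1 z.2).2.2) ?_
    rw [← LinearMap.ker_eq_bot, LinearMap.ker_eq_bot']
    rintro ⟨z, hz⟩ h0
    have h1 : phi L v0 z = 0 := congrArg Subtype.val h0
    refine Subtype.ext ?_
    funext α
    obtain ⟨G, hG, hG2⟩ := (hLam z hz).1 α
    have h2 := (hLam z hz).2.1 α
    have h3 : ∀ b, linQ x v0 (z fun _ => L.B b) = 0 := fun b => congrFun h1 b
    simp only [h3, mul_zero, Finset.sum_const_zero] at h2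
    have h4 := (mul_eq_zero.mp h2).resolve_left hD0
    rw [← hG2] at h4
    have h5 : G ∈ J := (hJ1 (m - 1) G hG).2 h4
    change z α = 0
    rw [← hG2]
    exact Ideal.Quotient.eq_zero_iff_mem.2 h5
  have hm1' : c * (m + 1) ≤ Module.finrank ℂ (Lam I J 1 m) + ∑ i, d i := hm1
  have h6 : c * (m + 1) = c * m + c := by ring
  omega

end Pool.Agent.Lib.MP_776403_ag.SD.H
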