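import Pool.Agent.Lib.MP_776403_ag.SD.SpecE
import Pool.Agent.Lib.MP_776403_ag.SD.Bas
import Pool.Agent.Lib.MP_776403_ag.SD.H.Defs

/-!
# THEOREM SD, part E, module EMain: the number of equations for lines with a section
-/

set_option autoImplicit false

open MvPolynomial

noncomputable section

namespace Pool.Agent.Lib.MP_776403_ag.SD.H

variable {N : ℕ}

namespace EMainAux

/-- A functional in `FL z J` that vanishes on generators in `J` vanishes on the ideal. -/
theorem vanish {σ : Type} {z : σ → ℂ} {J : Ideal (MvPolynomial σ ℂ)} {lam : MvPolynomial σ ℂ →ₗ[ℂ] ℂ}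
    (hlam : lam ∈ FL z J) {S : Set (MvPolynomial σ ℂ)} (hS : Ideal.span S ≤ J)
    (h0 : ∀ g ∈ S, lam g = 0) : ∀ f ∈ Ideal.span S, lam f = 0 := by
  intro f hf
  refine Submodule.span_induction (p := fun f _ => lam f = 0) ?_ ?_ ?_ ?_ hf
  · exact fun g hg => h0 g hg
  · exact map_zero lam
  · intro a b _ _ ha hb
    rw [map_add, ha, hb, add_zero]
  · intro a f hf hlf
    have h1 : (a - C (eval z a)) * f ∈ ptI z * J := by
      refine Ideal.mul_mem_mul ?_ (hS hf)
      change eval z (a - C (eval z a)) = 0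
      rw [map_sub, eval_C, sub_self]
    have h2 := hlam _ h1
    have h3 : a • f = (a - C (eval z a)) * f + (eval z a) • f := by
      rw [smul_eq_mul, MvPolynomial.smul_eq_C_mul]
      ring
    rw [h3, map_add, h2, map_smul, hlf, smul_zero, add_zero]

theorem card_Bc {I : Ideal (Sx N)} {x : Vx N} {c : ℕ} (L : Loc I x c) :
    Fintype.card L.Bc = N + 1 - c := by
  classical
  have h1 := Fintype.card_compl_set (Set.range L.B)
  rw [Set.card_range_of_injective L.injB, Fintype.card_fin, Fintype.card_fin] at h1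
  rw [← h1]
  exact Fintype.card_congr (Equiv.refl _)

end EMainAux

open EMainAux in
theorem eEMain : S_Dua → S_Col → S_ColT → S_FinB → S_Psi1 → S_Psi2 → S_E := by
  intro hDua hCol hColT hFinB hPsi1 hPsi2 N c d I hI x v0 hline L hgood k s0 hs0
  obtain ⟨hE1, hE2, hE3⟩ := hCol N c d I hI x v0 hline L
  obtain ⟨hT1, hT2, hT3⟩ := hColT N c d I hI x v0 hline L
  have hD0 : lin x v0 L.dt ≠ 0 := by
    intro h
    have h1 := congrArg (Polynomial.eval 0) h
    rw [Polynomial.eval_zero, lin_eval, zero_smul, add_zero] at h1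
    exact L.detx h1
  obtain ⟨p, hp⟩ := hPsi1 N c I hI.prime x v0 hline.1 L hgood k (ptA k v0 s0) (fun i => rfl)
    (J1 I x k ⊔ J2 I x (fun i => (s0 i).coeff 0) k) le_sup_left
  obtain ⟨r, hr⟩ := hPsi2 N c I hI.prime hI.hom hI.smooth x v0 hline.1 L hgood k s0 hs0
    (J1 I x k ⊔ J2 I x (fun i => (s0 i).coeff 0) k) le_sup_left le_sup_right
  obtain ⟨hf1, hd1⟩ := hDua (Fin c) (lin x v0 L.dt) (L.E v0) 1 hD0 hE1 hE2
  obtain ⟨hf2, hd2⟩ := hDua L.Bc (lin x v0 L.dt) (L.T v0) k hD0 hT1 hT2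
  -- the inclusion of the kernel
  let ι : LinearMap.ker p →ₗ[ℂ] FL1 I x (ptA k v0 s0) (J1 I x k ⊔ J2 I x (fun i => (s0 i).coeff 0) k) :=
    LinearMap.codRestrict _ ((FL (ptA k v0 s0) (J1 I x k ⊔ J2 I x (fun i => (s0 i).coeff 0) k)).subtype ∘ₗ
      (LinearMap.ker p).subtype) (fun lam => ⟨lam.1.2, fun F hF n => hp lam.1 lam.2 F hF n⟩)
  obtain ⟨r', hr'⟩ := LinearMap.exists_extend (r ∘ₗ ι)
  refine hFinB _ (ptA k v0 s0) _ _ _ (LinearMap.prod p r') ?_ ?_
  · rw [Module.finrank_prod]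
    rw [card_Bc] at hd2
    rw [Fintype.card_fin] at hd1
    omega
  · intro lam hlam f hf
    have h1 : p lam = 0 := congrArg Prod.fst hlam
    have h2 : r' lam = 0 := congrArg Prod.snd hlam
    have h3 : r (ι ⟨lam, h1⟩) = 0 := by
      have h4 := LinearMap.congr_fun hr' ⟨lam, h1⟩
      rw [LinearMap.comp_apply, LinearMap.comp_apply] at h4
      rw [← h4]
      exact h2
    have h5 := hr _ h3
    obtain ⟨f1, hf1', f2, hf2', rfl⟩ := Submodule.mem_sup.1 hf
    have h6 : lam.1 f1 = 0 := by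
      refine vanish lam.2 (S := {f | ∃ F ∈ I, ∃ n : ℕ, f = (linA k x F).coeff n}) le_sup_left ?_ f1 hf1'
      rintro g ⟨F, hF, n, rfl⟩
      exact hp lam h1 F hF n
    have h7 : lam.1 f2 = 0 := by
      refine vanish lam.2 (S := {f | ∃ w ∈ TF I, ∃ n : ℕ,
        f = (∑ i, sA k (fun i => (s0 i).coeff 0) i * linA k x (w i)).coeff n}) le_sup_right ?_ f2 hf2'
      rintro g ⟨w, hw, n, rfl⟩
      exact h5 w hw n
    rw [map_add, h6, h7, add_zero]

end Pool.Agent.Lib.MP_776403_ag.SD.H
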